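import Pool.Agent.H.MP_c4b7b1_co.D
import Pool.Agent.H.MP_c07d40_pr.B

set_option linter.unusedSectionVars false

namespace Pool.Agent.H.MP_dfc2f8_pr
open Finset Pool.Agent.H.MP_e84969_co Pool.Agent.H.MP_c4b7b1_co Pool.Agent.H.MP_c07d40_pr

lemma cnt_equiv {α β : Type} [Finite α] [Finite β] (e : α ≃ β) (p : β → Prop) :
    cnt (fun a => p (e a)) = cnt p :=
  le_antisymm (cnt_inj e (fun _ h => h) (fun _ _ _ _ h => e.injective h))
    (cnt_surj e (fun b h => ⟨e.symm b, by simpa using h, by simp⟩))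

lemma cnt_res {α β γ : Type} [Fintype α] [Fintype β] [Fintype γ] [DecidableEq α] [DecidableEq β]
    (ι : α → β) (hι : Function.Injective ι) (Φ : (α → γ) → Prop) :
    cnt (fun f : β → γ => Φ (f ∘ ι)) * (Fintype.card γ : ℝ) ^ Fintype.card α =
      cnt Φ * (Fintype.card γ : ℝ) ^ Fintype.card β := by
  classical
  have e := cnt_equiv ((Equiv.piEquivPiSubtypeProd (· ∈ Set.range ι) (fun _ => γ)).trans
    (Equiv.prodCongr (Equiv.arrowCongr (Equiv.ofInjective ι hι).symm (Equiv.refl γ)) (Equiv.refl _)))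
    (fun z => Φ z.1 ∧ True)
  rw [cnt_pair Φ (fun _ => True), cnt_true, Fintype.card_fun, Fintype.card_subtype_compl,
    ← Fintype.card_congr (Equiv.ofInjective ι hι)] at e
  rw [← Nat.sub_add_cancel (Fintype.card_le_of_injective ι hι), pow_add, ← mul_assoc,
    ← Nat.cast_pow (Fintype.card γ) (_ - _), ← e]
  simp only [and_true]
  rfl

variable {V : Type} [Fintype V] [DecidableEq V]

abbrev Om (V : Type) := Sym2 V → Fin 16

def gr (ω : Om V) : SimpleGraph V := SimpleGraph.fromEdgeSet {e | ω e ≠ 0}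

def Dom (G : SimpleGraph V) (D : Finset V) : Prop := ∀ v ∉ D, ∃ u ∈ D, G.Adj v u

lemma Dom.mono {G : SimpleGraph V} {D D' : Finset V} (h : Dom G D) (s : D ⊆ D') : Dom G D' :=
  fun v hv => let ⟨u, a, b⟩ := h v (fun e => hv (s e)); ⟨u, s a, b⟩

lemma cnt_zero (W A : Finset V) (h : A ⊆ W) :
    cnt (fun g : W → Fin 16 => ∀ w : W, w.1 ∈ A → g w = 0) = 16 ^ W.card * (1 / 16) ^ A.card := by
  rw [cnt_prod (fun (w : W) (c : Fin 16) => w.1 ∈ A → c = 0)]
  have : ∀ w : W, cnt (fun c : Fin 16 => w.1 ∈ A → c = 0) = 16 * if w.1 ∈ A then 1 / 16 else 1 := by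
    intro w; split_ifs with c <;> simp [c, cnt]
  simp only [this]
  rw [prod_coe_sort W (fun w => (16 : ℝ) * if w ∈ A then 1 / 16 else 1), prod_mul_distrib,
    prod_ite_mem, inter_eq_right.2 h]
  simp

def E2 (G : SimpleGraph V) (A B : Finset V) : Prop :=
  ∀ v ∉ A ∪ B, (∃ u ∈ A, G.Adj v u) ∧ ∃ u ∈ B, G.Adj v u

lemma cnt_E2 (A B : Finset V) : cnt (fun ω : Om V => E2 (gr ω) A B) =
    Fintype.card (Om V) * (1 - (1 / 16) ^ A.card - (1 / 16) ^ B.card + (1 / 16) ^ (A ∪ B).card) ^
      (Fintype.card V - (A ∪ B).card) := by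
  set W := A ∪ B with hW
  let φ : (W → Fin 16) → Prop := fun g => ¬ (∀ w : W, w.1 ∈ A → g w = 0) ∧ ¬ ∀ w : W, w.1 ∈ B → g w = 0
  have h1 : cnt φ = 16 ^ W.card *
      (1 - (1 / 16) ^ A.card - (1 / 16) ^ B.card + (1 / 16) ^ W.card) := by
    have a1 := cnt_split (fun _ : W → Fin 16 => True) (fun g => ∀ w : W, w.1 ∈ A → g w = 0)
    have a2 := cnt_split (fun g : W → Fin 16 => ¬ ∀ w : W, w.1 ∈ A → g w = 0)
      (fun g => ∀ w : W, w.1 ∈ B → g w = 0)
    have a3 := cnt_split (fun g : W → Fin 16 => ∀ w : W, w.1 ∈ B → g w = 0)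
      (fun g => ∀ w : W, w.1 ∈ A → g w = 0)
    have a4 : (fun g : W → Fin 16 => (∀ w : W, w.1 ∈ B → g w = 0) ∧ ∀ w : W, w.1 ∈ A → g w = 0) =
        fun g => ∀ w : W, w.1 ∈ W → g w = 0 := by
      ext g; simp only [hW, mem_union]; grind
    rw [a4] at a3
    simp only [true_and, cnt_true, and_comm (a := ∀ w : W, w.1 ∈ B → _)] at a1 a3
    rw [cnt_zero W A subset_union_left] at a1
    rw [cnt_zero W B subset_union_right, cnt_zero W W subset_rfl] at a3
    simp only [Fintype.card_fun, Fintype.card_fin, Fintype.card_coe] at a1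
    push_cast at a1
    linarith
  have h2 := cnt_res (fun z : (Wᶜ : Finset V) × W => s(z.1.1, z.2.1)) (fun a b e => by
    have := mem_compl.1 a.1.2; have := b.2.2
    simp only [Sym2.eq_iff] at e
    ext <;> grind) (fun g => ∀ x, φ (Equiv.curry _ _ _ g x))
  rw [cnt_equiv (Equiv.curry _ _ _) (fun h => ∀ x, φ (h x)), cnt_prod (fun _ => φ), h1] at h2
  simp only [prod_const, card_univ, Fintype.card_coe, card_compl, Fintype.card_prod,
    Fintype.card_fin] at h2
  have h3 : (fun ω : Om V => E2 (gr ω) A B) = fun ω => ∀ x : (Wᶜ : Finset V), φ (Equiv.curry _ _ _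
      (ω ∘ fun z : (Wᶜ : Finset V) × W => s(z.1.1, z.2.1)) x) := by
    ext ω
    simp only [E2, gr, φ, Subtype.forall, mem_compl, ← hW]
    refine forall₂_congr (fun v hv => ?_)
    simp only [hW, mem_union] at hv
    simp [hW]
    grind
  rw [h3]
  refine mul_right_cancel₀ (by positivity) (h2.trans ?_)
  simp only [Fintype.card_fun, Fintype.card_fin]
  push_cast
  rw [mul_pow, ← pow_mul]; ring

lemma cnt_Dom (A : Finset V) : cnt (fun ω : Om V => Dom (gr ω) A) =
    Fintype.card (Om V) * (1 - (1 / 16) ^ A.card) ^ (Fintype.card V - A.card) := by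
  have := cnt_E2 A A
  simp only [E2, union_self, and_self, sub_add_cancel] at this
  exact this

lemma cnt_D2 (A B : Finset V) : cnt (fun ω : Om V => Dom (gr ω) A ∧ Dom (gr ω) B) ≤
    Fintype.card (Om V) * (1 - (1 / 16) ^ A.card - (1 / 16) ^ B.card + (1 / 16) ^ (A ∪ B).card) ^
      (Fintype.card V - (A ∪ B).card) :=
  (cnt_mono (fun _ h v hv => ⟨h.1 v (fun e => hv (by simp [e])), h.2 v (fun e => hv (by simp [e]))⟩)).trans
    (cnt_E2 A B).le

lemma cnt_pc (W : Finset V) (j : ℕ) : cnt (fun A : Finset V => A ⊆ W ∧ A.card = j) = W.card.choose j := by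
  classical
  rw [cnt_eq_card, ← card_powersetCard]
  congr 2; ext A; simp

lemma cnt_ch (j : ℕ) : cnt (fun A : Finset V => A.card = j) = (Fintype.card V).choose j := by
  simpa using cnt_pc (univ : Finset V) j

lemma cnt_ov (t j : ℕ) : cnt (fun z : Finset V × Finset V => z.1.card = t ∧ z.2.card = t ∧
    (z.1 ∩ z.2).card = j) ≤ (Fintype.card V).choose t * (t ^ j * (Fintype.card V).choose (t - j)) := by
  rw [← cnt_ch]
  refine pair_up (fun A : Finset V => A.card = t)
    (fun A B : Finset V => B.card = t ∧ (A ∩ B).card = j) _ (fun A hA => ?_)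
  refine (cnt_inj (r := fun z : Finset V × Finset V => (z.1 ⊆ A ∧ z.1.card = j) ∧ z.2.card = t - j)
      (fun B : Finset V => (A ∩ B, B \ A)) (fun B h => ⟨⟨inter_subset_left, h.2⟩, by
        rw [card_sdiff, h.1, h.2]⟩) (fun B C _ _ e => ?_)).trans ?_
  · simp only [Prod.mk.injEq, Finset.ext_iff, mem_inter, mem_sdiff] at e ⊢
    grind
  · rw [cnt_pair (fun S : Finset V => S ⊆ A ∧ S.card = j) (fun S : Finset V => S.card = t - j),
      cnt_pc, cnt_ch, hA]
    gcongr
    exact_mod_cast Nat.choose_le_pow t j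

lemma ch_le (n t : ℕ) (h : 2 * t ≤ n) (j : ℕ) (hj : j ≤ t) :
    (n.choose (t - j) : ℝ) * n ^ j ≤ n.choose t * (2 * t) ^ j := by
  induction j with
  | zero => simp
  | succ j ih =>
    have a := ih (by omega)
    have b := Nat.choose_succ_right_eq n (t - (j + 1))
    rw [show t - (j + 1) + 1 = t - j by omega] at b
    have c : n.choose (t - (j + 1)) * n ≤ n.choose (t - j) * (2 * t) := by
      calc _ ≤ n.choose (t - (j + 1)) * (2 * (n - (t - (j + 1)))) := by gcongr; omega
        _ = n.choose (t - j) * (2 * (t - j)) := by rw [mul_left_comm, ← b]; ring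
        _ ≤ _ := by gcongr; omega
    have c : (n.choose (t - (j + 1)) : ℝ) * n ≤ n.choose (t - j) * (2 * t) := by exact_mod_cast c
    calc _ = (n.choose (t - (j + 1)) : ℝ) * n * n ^ j := by ring
      _ ≤ n.choose (t - j) * (2 * t) * n ^ j := by gcongr
      _ = n.choose (t - j) * n ^ j * (2 * t) := by ring
      _ ≤ n.choose t * (2 * t) ^ j * (2 * t) := by gcongr
      _ = _ := by ring

def GW (b : ℕ) (goal : Finset V → Prop) : ℕ → Finset V → Finset V → Prop
  | 0, D, _ => goal D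
  | k + 1, D, T => goal D ∨ ∃ v, v ∉ D ∪ T ∧ ∀ B : Finset V, B.card ≤ b → Disjoint B (insert v D ∪ T) →
      GW b goal k (insert v D) (T ∪ B)

lemma beck (F : Finset (Finset V)) (goal : Finset V → Prop) (hg : ∀ A ∈ F, ∀ D, A ⊆ D → goal D) (c : ℝ)
    (t : ℕ) (ht : ∀ A ∈ F, A.card = t) (hc : ∀ x y, x ≠ y → ((F.filter (fun A => x ∈ A ∧ y ∈ A)).card : ℝ) ≤ c)
    (c0 : 0 ≤ c) (k : ℕ) : ∀ D T : Finset V, (D ∪ T)ᶜ.card ≤ k →
      k * (c * 2 ^ t) < ∑ A ∈ F, (if Disjoint A T then (2 : ℝ) ^ (A ∩ D).card else 0) →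
      GW 1 goal k D T := by
  have z : ∀ D T : Finset V, (D ∪ T)ᶜ = ∅ →
      0 < ∑ A ∈ F, (if Disjoint A T then (2 : ℝ) ^ (A ∩ D).card else 0) → goal D := by
    intro D T e h
    obtain ⟨A, a, b⟩ := exists_ne_zero_of_sum_ne_zero h.ne'
    refine hg A a D (fun x hx => ?_)
    have := disjoint_left.1 (ite_ne_right_iff.1 b).1 hx
    have := eq_empty_iff_forall_notMem.1 e x
    simp only [mem_compl, mem_union] at this
    tauto
  induction k with
  | zero => exact fun D T a b => z D T (by simpa using a) (by simpa using b)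
  | succ k ih =>
    intro D T a b
    rcases (D ∪ T)ᶜ.eq_empty_or_nonempty with e | e
    · exact Or.inl (z D T e (lt_of_le_of_lt (by positivity) b))
    set w : Finset V → ℝ := fun A => if Disjoint A T then (2 : ℝ) ^ (A ∩ D).card else 0 with hw
    have w0 : ∀ A, 0 ≤ w A := fun A => by simp only [hw]; split_ifs <;> positivity
    obtain ⟨x, hx, mx⟩ := exists_max_image _ (fun x => ∑ A ∈ F, if x ∈ A then w A else 0) e
    have hx' := mem_compl.1 hx
    have xD : x ∉ D := fun e => hx' (by simp [e])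
    have k1 : ∀ A : Finset V, (2 : ℝ) ^ (A ∩ insert x D).card =
        2 ^ (A ∩ D).card + if x ∈ A then 2 ^ (A ∩ D).card else 0 := fun A => by
      split_ifs with q
      · rw [inter_insert_of_mem q, card_insert_of_notMem (by simp [xD])]; ring
      · rw [inter_insert_of_notMem q]; simp
    refine Or.inr ⟨x, hx', fun B b1 b2 => ih _ _ ?_ ?_⟩
    · have := card_lt_card (s := (insert x D ∪ (T ∪ B))ᶜ) (t := (D ∪ T)ᶜ)
        ⟨fun y => by simp; tauto, fun h => by simpa using h hx⟩
      omega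
    push_cast at b
    simp only [k1]
    rcases B.eq_empty_or_nonempty with rfl | ⟨y, hy⟩
    · refine lt_of_lt_of_le (by nlinarith [(by positivity : 0 ≤ c * 2 ^ t)]) (le_of_eq_of_le rfl
        (sum_le_sum (f := w) (fun A _ => ?_)))
      simp only [hw, union_empty]
      split_ifs <;> simp
    obtain rfl : B = {y} := (eq_singleton_iff_unique_mem.2 ⟨hy, fun z hz => card_le_one.1 b1 _ hz _ hy⟩)
    simp only [disjoint_singleton_left, mem_union, mem_insert, not_or] at b2
    have m := mx y (by simp [b2])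
    have m2 : ∑ A ∈ F, (if x ∈ A ∧ y ∈ A then w A else 0) ≤ c * 2 ^ t := by
      rw [← sum_filter]
      refine (sum_le_card_nsmul _ _ (2 ^ t) (fun A h => ?_)).trans ?_
      · simp only [hw]
        split_ifs
        · exact pow_le_pow_right₀ (by norm_num) (ht A (mem_filter.1 h).1 ▸ card_le_card inter_subset_left)
        · positivity
      · rw [nsmul_eq_mul]; gcongr; exact hc x y (Ne.symm b2.1.1)
    have m3 : ∑ A ∈ F, (if Disjoint A (T ∪ {y}) then (2 : ℝ) ^ (A ∩ D).card +
        (if x ∈ A then 2 ^ (A ∩ D).card else 0) else 0) = ∑ A ∈ F, (w A + (if x ∈ A then w A else 0) -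
        (if y ∈ A then w A else 0) - (if x ∈ A ∧ y ∈ A then w A else 0)) := by
      refine sum_congr rfl (fun A _ => ?_)
      simp only [hw, disjoint_union_right, disjoint_singleton_right]
      split_ifs <;> simp_all
    rw [m3, sum_sub_distrib, sum_sub_distrib, sum_add_distrib]
    linarith

end Pool.Agent.H.MP_dfc2f8_pr
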