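import Pool.Agent.H.MP_dfc2f8_pr.A

set_option linter.unusedSectionVars false

namespace Pool.Agent.H.MP_dfc2f8_pr
open Finset Real Pool.Agent.H.MP_e84969_co Pool.Agent.H.MP_c4b7b1_co Pool.Agent.H.MP_c07d40_pr

variable {V : Type} [Fintype V] [DecidableEq V]

def FF (t : ℕ) (G : SimpleGraph V) (A : Finset V) : Prop := A.card = t ∧ Dom G A

def PJ (t j : ℕ) (z : (Finset V × Finset V) × Om V) : Prop :=
  (z.1.1.card = t ∧ z.1.2.card = t ∧ (z.1.1 ∩ z.1.2).card = j) ∧ Dom (gr z.2) z.1.1 ∧ Dom (gr z.2) z.1.2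

lemma PJ_le (t j : ℕ) (hj : j ≤ t) (ht : 1 ≤ t) : cnt (PJ (V := V) t j) ≤
    (Fintype.card V).choose t * (t ^ j * (Fintype.card V).choose (t - j)) * (Fintype.card (Om V) *
      (1 - (1 / 16) ^ t - (1 / 16) ^ t + (1 / 16) ^ (2 * t - j)) ^ (Fintype.card V - (2 * t - j))) := by
  have x1 : (1 / 16 : ℝ) ^ t ≤ (1 / 16) ^ 1 := pow_le_pow_of_le_one (by norm_num) (by norm_num) ht
  have : (0 : ℝ) ≤ 1 - (1 / 16) ^ t - (1 / 16) ^ t + (1 / 16) ^ (2 * t - j) := by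
    have : (0 : ℝ) ≤ (1 / 16) ^ (2 * t - j) := by positivity
    linarith
  refine (pair_up (fun z : Finset V × Finset V => z.1.card = t ∧ z.2.card = t ∧ (z.1 ∩ z.2).card = j)
    (fun z (ω : Om V) => Dom (gr ω) z.1 ∧ Dom (gr ω) z.2) _ (fun z h => ?_)).trans
    (mul_le_mul_of_nonneg_right (cnt_ov t j) (by positivity))
  have := card_union_add_card_inter z.1 z.2
  refine (cnt_D2 _ _).trans (le_of_eq ?_)
  rw [h.1, h.2.1, show (z.1 ∪ z.2).card = 2 * t - j by omega]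

lemma e27 : exp (27 / 10) ≤ 16 := by
  have := exp_one_lt_d9
  have h : exp (27 / 10) ^ 10 = exp 1 ^ 27 := by rw [← exp_nat_mul, ← exp_nat_mul]; norm_num
  refine le_of_pow_le_pow_left₀ (n := 10) (by norm_num) (by norm_num) (h.le.trans ?_)
  exact (pow_le_pow_left₀ (by positivity) this.le _).trans (by norm_num)

lemma e3 : 20 ≤ exp 3 := by
  have := exp_one_gt_d9
  rw [show (3 : ℝ) = (3 : ℕ) * 1 by norm_num, exp_nat_mul]
  exact le_trans (by norm_num) (pow_le_pow_left₀ (by norm_num) this.le _)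

lemma ex_le {t j : ℕ} (ht : 27 ≤ t) (H : 10 ^ 5 * (t : ℝ) ^ 3 ≤ (5 / 4) ^ t) (hj : j ≤ t) :
    exp (5 / 2 * t ^ 2 * (1 / 16) ^ (t - j)) * ((1 / 16) ^ t) ^ j ≤ 3 * ((1 / 16) ^ t) ^ (min j 2) := by
  have t1 : (27 : ℝ) ≤ t := by exact_mod_cast ht
  have a : (1 / 16 : ℝ) ^ t ≤ exp (-(27 / 10 * t)) := by
    rw [exp_neg, mul_comm, exp_nat_mul, one_div, inv_pow]
    gcongr; exact e27
  have b : 5 / 2 * (t : ℝ) ^ 2 * (1 / 16) ^ (t - j) ≤ 1 + (j - min j 2 : ℕ) * (27 / 10 * t) := by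
    by_cases c : 2 * j ≤ t
    · have c1 : (1 / 16 : ℝ) ^ (t - j) * (5 / 4) ^ t ≤ 1 := by
        calc _ ≤ (1 / 16 : ℝ) ^ (t - j) * (5 / 4) ^ (2 * (t - j)) := by gcongr <;> [norm_num; omega]
          _ ≤ 1 := by rw [pow_mul, ← mul_pow]; exact pow_le_one₀ (by norm_num) (by norm_num)
      have c2 : 5 / 2 * (t : ℝ) ^ 2 ≤ (5 / 4) ^ t := by nlinarith
      have c3 := mul_le_mul_of_nonneg_right c2 (by positivity : (0 : ℝ) ≤ (1 / 16) ^ (t - j))
      have : (0 : ℝ) ≤ (j - min j 2 : ℕ) * (27 / 10 * t) := by positivity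
      linarith
    rw [min_eq_right (by omega), Nat.cast_sub (by omega)]
    have c1 : (t : ℝ) ≤ 2 * j := by exact_mod_cast (by omega)
    push_cast
    rcases hj.eq_or_lt with rfl | hj
    · simp; nlinarith
    · have : (1 / 16 : ℝ) ^ (t - j) ≤ (1 / 16) ^ 1 := pow_le_pow_of_le_one (by norm_num) (by norm_num) (by omega)
      nlinarith [mul_le_mul_of_nonneg_left this (by positivity : (0 : ℝ) ≤ t ^ 2)]
  have c : ((1 / 16 : ℝ) ^ t) ^ j = ((1 / 16) ^ t) ^ (j - min j 2) * ((1 / 16) ^ t) ^ (min j 2) := by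
    rw [← pow_add, Nat.sub_add_cancel (min_le_left _ _)]
  rw [c, ← mul_assoc]
  refine mul_le_mul_of_nonneg_right ((mul_le_mul (exp_le_exp.2 b) (pow_le_pow_left₀ (by positivity) a _)
    (by positivity) (by positivity)).trans ?_) (by positivity)
  rw [← exp_nat_mul, ← exp_add]
  simpa using exp_one_lt_d9.le.trans (by norm_num)

noncomputable def mu (n t : ℕ) : ℝ := n.choose t * (1 - (1 / 16) ^ t) ^ (n - t)

section
variable {t : ℕ} (ht : 27 ≤ t) (H : 10 ^ 5 * (t : ℝ) ^ 3 ≤ (5 / 4) ^ t)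
  (hn : Fintype.card V = 2 * t ^ 2 * 16 ^ t)
include ht H hn

lemma xs : 10 ^ 5 * (t : ℝ) ^ 3 * (2 ^ t * (1 / 16) ^ t) ≤ 1 ∧ 2 * t ≤ Fintype.card V ∧
    (Fintype.card V : ℝ) * (1 / 16) ^ t = 2 * t ^ 2 ∧ 100 * t * (1 / 16 : ℝ) ^ t ≤ 1 := by
  have t1 : (27 : ℝ) ≤ t := by exact_mod_cast ht
  have a : 10 ^ 5 * (t : ℝ) ^ 3 * (2 ^ t * (1 / 16) ^ t) ≤ 1 := by
    refine (mul_le_mul_of_nonneg_right H (by positivity)).trans ?_
    rw [← mul_pow, ← mul_pow]; exact pow_le_one₀ (by norm_num) (by norm_num)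
  refine ⟨a, ?_, ?_, le_trans ?_ a⟩
  · have := Nat.one_le_pow t 16 (by norm_num)
    rw [hn]; nlinarith
  · rw [hn]; push_cast; rw [mul_assoc, ← mul_pow]; simp
  · rw [← mul_assoc]
    refine mul_le_mul_of_nonneg_right ?_ (by positivity)
    have : (1 : ℝ) ≤ 2 ^ t := one_le_pow₀ (by norm_num)
    have : (t : ℝ) ≤ t ^ 3 := le_self_pow₀ (by linarith) (by norm_num)
    nlinarith

lemma PJ_mu (j : ℕ) (hj : j ≤ t) : cnt (PJ (V := V) t j) ≤
    Fintype.card (Om V) * mu (Fintype.card V) t ^ 2 * (6 * ((1 / 16) ^ t) ^ (min j 2)) := by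
  obtain ⟨-, x2, x3, x4⟩ := xs ht H hn
  have t1 : (27 : ℝ) ≤ t := by exact_mod_cast ht
  refine (PJ_le t j hj (by omega)).trans ?_
  have e := ex_le ht H hj
  have c := ch_le _ t x2 j hj
  rw [mu, show 2 * t - j = t + (t - j) by omega, pow_add]
  generalize Fintype.card V = n at *
  generalize Fintype.card (Om V) = M
  have y0 : (0 : ℝ) ≤ (1 / 16) ^ (t - j) := by positivity
  generalize (1 / 16 : ℝ) ^ (t - j) = y at *
  have x0 : (0 : ℝ) < (1 / 16) ^ t := by positivity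
  generalize (1 / 16 : ℝ) ^ t = x at *
  have x5 : x ≤ 1 / 100 := by nlinarith
  have x6 : 0 ≤ 1 - x := by linarith
  have a1 : 1 - x - x + x * y ≤ (1 - x) ^ 2 * exp (5 / 4 * (x * y)) := by
    have := add_one_le_exp (5 / 4 * (x * y))
    have : 0 ≤ x * y := by positivity
    have : 4 / 5 ≤ (1 - x) ^ 2 := by nlinarith
    nlinarith
  have a2 : (1 - x) ^ (2 * (n - (t + (t - j)))) ≤ 2 * ((1 - x) ^ (n - t)) ^ 2 := by
    have b1 := one_add_mul_le_pow (a := -x) (by linarith) (2 * t)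
    have b2 : (1 - x) ^ (2 * (n - (t + (t - j))) + 2 * t) ≤ (1 - x) ^ ((n - t) * 2) :=
      pow_le_pow_of_le_one x6 (by linarith) (by omega)
    rw [pow_add, pow_mul _ _ 2] at b2
    rw [← sub_eq_add_neg] at b1
    push_cast at b1
    nlinarith [pow_nonneg x6 (2 * (n - (t + (t - j))))]
  have a3 : (1 - x - x + x * y) ^ (n - (t + (t - j))) ≤
      2 * ((1 - x) ^ (n - t)) ^ 2 * exp (5 / 2 * t ^ 2 * y) := by
    refine (pow_le_pow_left₀ (by nlinarith [mul_nonneg x0.le y0]) a1 _).trans ?_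
    rw [mul_pow, ← pow_mul, ← exp_nat_mul]
    refine mul_le_mul a2 (exp_le_exp.2 ?_) (by positivity) (by positivity)
    have : ((n - (t + (t - j)) : ℕ) : ℝ) ≤ n := by exact_mod_cast Nat.sub_le _ _
    calc _ ≤ n * (5 / 4 * (x * y)) := by gcongr
      _ = 5 / 4 * (n * x) * y := by ring
      _ = _ := by rw [x3]; ring
  have a4 : (t : ℝ) ^ j * n.choose (t - j) ≤ n.choose t * x ^ j := by
    refine le_of_mul_le_mul_right ?_ (by have : 0 < n := by omega
                                         positivity : (0 : ℝ) < n ^ j)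
    rw [mul_assoc, mul_assoc, ← mul_pow x, mul_comm x, x3]
    refine (mul_le_mul_of_nonneg_left c (by positivity)).trans (le_of_eq ?_)
    rw [mul_left_comm, ← mul_pow]; congr 2; ring
  calc _ ≤ n.choose t * (n.choose t * x ^ j) * (M * (2 * ((1 - x) ^ (n - t)) ^ 2 *
        exp (5 / 2 * t ^ 2 * y))) :=
        mul_le_mul (by gcongr) (by gcongr) (mul_nonneg (by positivity) (pow_nonneg
          (by nlinarith [mul_nonneg x0.le y0]) _)) (by positivity)
    _ = M * (n.choose t * (1 - x) ^ (n - t)) ^ 2 * (2 * (exp (5 / 2 * t ^ 2 * y) * x ^ j)) := by ring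
    _ ≤ _ := mul_le_mul_of_nonneg_left (by linarith) (by positivity)

lemma PJ_low : cnt (PJ (V := V) t (t - 1)) ≤ Fintype.card (Om V) * (1 / 400) := by
  obtain ⟨-, x2, x3, x4⟩ := xs ht H hn
  have t1 : (27 : ℝ) ≤ t := by exact_mod_cast ht
  refine (PJ_le t (t - 1) (by omega) (by omega)).trans ?_
  rw [show 2 * t - (t - 1) = t + 1 by omega, show t - (t - 1) = 1 by omega, pow_succ, Nat.choose_one_right]
  have t3 : (t : ℝ) ^ 2 ≤ t ^ 3 := pow_le_pow_right₀ (by linarith) (by norm_num)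
  have a1 : (Fintype.card V : ℝ) ≤ exp (t * 3) := by
    rw [hn, exp_nat_mul]; push_cast
    calc _ ≤ (5 / 4) ^ t * (16 : ℝ) ^ t := by gcongr; nlinarith
      _ ≤ _ := by rw [← mul_pow]; gcongr; linarith [e3]
  have a2 : (t : ℝ) ≤ exp (t * (1 / 4)) := by
    rw [exp_nat_mul]
    refine le_trans (by nlinarith) (H.trans ?_)
    gcongr; linarith [add_one_le_exp (1 / 4)]
  generalize Fintype.card V = n at *
  generalize Fintype.card (Om V) = M
  have x0 : (0 : ℝ) < (1 / 16) ^ t := by positivity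
  generalize (1 / 16 : ℝ) ^ t = x at *
  have x5 : x ≤ 1 / 100 := by nlinarith
  have a3 : (1 - x - x + x * (1 / 16)) ^ (n - (t + 1)) ≤ exp (1 - 31 / 8 * t ^ 2) := by
    refine (pow_le_pow_left₀ (by linarith) (by linarith [add_one_le_exp (-(31 / 16 * x))] :
      _ ≤ exp (-(31 / 16 * x))) _).trans ?_
    rw [← exp_nat_mul, exp_le_exp, Nat.cast_sub (by omega)]
    push_cast; nlinarith
  have a4 : (n.choose t : ℝ) ≤ exp (t * 3) ^ t :=
    (Nat.cast_le.2 (Nat.choose_le_pow n t)).trans (by push_cast; gcongr)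
  have a5 : (t : ℝ) ^ (t - 1) ≤ exp (t * (1 / 4)) ^ t :=
    (pow_le_pow_right₀ (by linarith) (Nat.sub_le t 1)).trans (by gcongr)
  calc _ ≤ exp (t * 3) ^ t * (exp (t * (1 / 4)) ^ t * exp (t * 3)) * (M * exp (1 - 31 / 8 * t ^ 2)) :=
        mul_le_mul (by gcongr) (by gcongr) (mul_nonneg (by positivity) (pow_nonneg
          (by linarith) _)) (by positivity)
    _ = M * exp (t * (t * 3) + (t * (t * (1 / 4)) + t * 3) + (1 - 31 / 8 * t ^ 2)) := by
        rw [← exp_nat_mul, ← exp_nat_mul, exp_add, exp_add, exp_add]; ring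
    _ ≤ M * exp (-(3 + 3)) := mul_le_mul_of_nonneg_left (exp_le_exp.2 (by nlinarith)) (by positivity)
    _ ≤ _ := by
        rw [exp_neg, exp_add, one_div]
        gcongr; nlinarith [e3]

lemma PZ : cnt (fun z : (Finset V × Finset V) × Om V => FF t (gr z.2) z.1.1 ∧ FF t (gr z.2) z.1.2 ∧
    2 ≤ (z.1.1 ∩ z.1.2).card) ≤
    t * (Fintype.card (Om V) * mu (Fintype.card V) t ^ 2 * (6 * ((1 / 16) ^ t) ^ 2)) := by
  refine (cnt_sum (Icc 2 t) (PJ t) (fun z h => ⟨_, mem_Icc.2 ⟨h.2.2, h.1.1 ▸ card_le_card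
    inter_subset_left⟩, ⟨h.1.1, h.2.1.1, rfl⟩, h.1.2, h.2.1.2⟩)).trans ((sum_le_card_nsmul _ _ _
      (fun j hj => (PJ_mu ht H hn j (mem_Icc.1 hj).2).trans (by
        rw [min_eq_right (mem_Icc.1 hj).1]))).trans ?_)
  rw [nsmul_eq_mul, Nat.card_Icc]
  gcongr; omega

lemma PX : cnt (fun z : (Finset V × Finset V) × Om V => FF t (gr z.2) z.1.1 ∧ FF t (gr z.2) z.1.2) ≤
    Fintype.card (Om V) * mu (Fintype.card V) t ^ 2 * 13 := by
  obtain ⟨-, -, -, x4⟩ := xs ht H hn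
  have t1 : (27 : ℝ) ≤ t := by exact_mod_cast ht
  have a := (cnt_or (p := fun z : (Finset V × Finset V) × Om V => FF t (gr z.2) z.1.1 ∧
    FF t (gr z.2) z.1.2) (s := fun z => PJ t 0 z ∨ PJ t 1 z) (fun z h => by
      unfold PJ; have := h.1.1; have := h.1.2; have := h.2.1; have := h.2.2; grind)).trans
    (add_le_add (PZ ht H hn) ((cnt_or (fun _ h => h)).trans (add_le_add (PJ_mu ht H hn 0 (by omega))
      (PJ_mu ht H hn 1 (by omega)))))
  have x0 : (0 : ℝ) < (1 / 16) ^ t := by positivity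
  generalize (1 / 16 : ℝ) ^ t = x at *
  have x5 : x ≤ 1 / 100 := by nlinarith
  have : t * (6 * x ^ 2) + (6 + 6 * x) ≤ 13 := by nlinarith
  have := mul_le_mul_of_nonneg_left this
    (by positivity : (0 : ℝ) ≤ Fintype.card (Om V) * mu (Fintype.card V) t ^ 2)
  simp only [show min 0 2 = 0 from rfl, show min 1 2 = 1 from rfl, pow_zero, pow_one] at a
  linarith

end

end Pool.Agent.H.MP_dfc2f8_pr
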