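import Pool.Agent.H.MP_dfc2f8_pr.B

set_option linter.unusedSectionVars false

namespace Pool.Agent.H.MP_dfc2f8_pr
open Finset Real Pool.Agent.H.MP_e84969_co Pool.Agent.H.MP_c4b7b1_co Pool.Agent.H.MP_c07d40_pr Filter

variable {V : Type} [Fintype V] [DecidableEq V]

def Good (t : ℕ) (G : SimpleGraph V) : Prop :=
  (∃ k, GW 1 (fun D => ∃ A ⊆ D, A.card ≤ t ∧ Dom G A) k ∅ ∅) ∧ (∃ A, FF t G A) ∧
    ¬ ∃ A B, FF t G A ∧ FF t G B ∧ (A ∩ B).card = t - 1

def ZZ (t : ℕ) (G : SimpleGraph V) (z : Finset V × Finset V) : Prop :=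
  FF t G z.1 ∧ FF t G z.2 ∧ 2 ≤ (z.1 ∩ z.2).card

lemma win {t : ℕ} {G : SimpleGraph V} {c : ℝ} (c0 : 0 < c)
    (h : Fintype.card V * (c * 2 ^ t) + cnt (ZZ t G) / c < cnt (FF t G)) :
    ∃ k, GW 1 (fun D => ∃ A ⊆ D, A.card ≤ t ∧ Dom G A) k ∅ ∅ := by
  classical
  let q : Finset V → Prop := fun A => c < cnt (fun B => FF t G B ∧ 2 ≤ (A ∩ B).card)
  have a1 := cnt_split (FF t G) q
  have a2 := (pair_lo (fun A => FF t G A ∧ q A) (fun A B => FF t G B ∧ 2 ≤ (A ∩ B).card) c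
    (fun A h => h.2.le)).trans (cnt_mono (r := ZZ t G) (fun z h => ⟨h.1.1, h.2⟩))
  rw [← le_div_iff₀ c0] at a2
  refine ⟨_, beck (univ.filter (fun A => FF t G A ∧ ¬ q A)) _ (fun A hA D s => ?_) c t
    (fun A hA => (mem_filter.1 hA).2.1.1) (fun x y n => ?_) c0.le (Fintype.card V) ∅ ∅ (by simp) ?_⟩
  · exact ⟨A, s, (mem_filter.1 hA).2.1.1.le, (mem_filter.1 hA).2.1.2⟩
  · rw [filter_filter, ← cnt_eq_card]
    by_cases e : ∃ A, (FF t G A ∧ ¬ q A) ∧ x ∈ A ∧ y ∈ A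
    · obtain ⟨A, ⟨-, a⟩, b⟩ := e
      exact (cnt_mono (fun B h => ⟨h.1.1, one_lt_card.2 ⟨x, mem_inter.2 ⟨b.1, h.2.1⟩, y,
        mem_inter.2 ⟨b.2, h.2.2⟩, n⟩⟩)).trans (not_lt.1 a)
    · rw [cnt_false (not_exists.1 e)]; exact c0.le
  · simp only [disjoint_empty_right, if_true, inter_empty, card_empty, pow_zero, sum_const, nsmul_eq_mul,
      mul_one, ← cnt_eq_card]
    linarith

lemma good_lo {t : ℕ} (ht : 27 ≤ t) (H : 10 ^ 5 * (t : ℝ) ^ 3 ≤ (5 / 4) ^ t)
    (hn : Fintype.card V = 2 * t ^ 2 * 16 ^ t) :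
    Fintype.card (Om V) * (1 / 100) ≤ cnt (fun ω : Om V => Good t (gr ω)) := by
  obtain ⟨x1, x2, x3, x4⟩ := xs ht H hn
  have t1 : (27 : ℝ) ≤ t := by exact_mod_cast ht
  have m0 : 0 < mu (Fintype.card V) t := mul_pos (Nat.cast_pos.2 (Nat.choose_pos (by omega)))
    (pow_pos (sub_pos.2 (pow_lt_one₀ (by norm_num) (by norm_num) (by omega))) _)
  have M0 : (0 : ℝ) < Fintype.card (Om V) := Nat.cast_pos.2 Fintype.card_pos
  have n0 : (0 : ℝ) < Fintype.card V := Nat.cast_pos.2 (by omega)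
  have a1 : Fintype.card (Om V) * mu (Fintype.card V) t ≤
      cnt (fun z : Om V × Finset V => FF t (gr z.1) z.2) := by
    refine le_trans ?_ ((pair_lo (fun A : Finset V => A.card = t) (fun A (ω : Om V) => Dom (gr ω) A) _
      (fun A h => by rw [cnt_Dom, h])).trans (cnt_inj Prod.swap (fun _ h => h)
        (fun _ _ _ _ e => Prod.swap_injective e)))
    rw [cnt_ch, mu, mul_left_comm]
  have a2 := PX ht H hn
  have a3 := PZ ht H hn
  have a4 := PJ_low ht H hn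
  generalize mu (Fintype.card V) t = μ at *
  let s : Om V → Prop := fun ω => μ / 2 ≤ cnt (FF t (gr ω))
  have b1 := cnt_split (fun z : Om V × Finset V => FF t (gr z.1) z.2) (fun z => s z.1)
  have b2 := (cnt_mono (p := fun z : Om V × Finset V => FF t (gr z.1) z.2 ∧ ¬ s z.1)
    (fun _ h => h.symm)).trans ((pair_up (fun ω => ¬ s ω) (fun ω => FF t (gr ω)) (μ / 2)
      (fun _ h => (not_le.1 h).le)).trans (mul_le_mul_of_nonneg_right (cnt_le_card _) (by positivity)))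
  have b3 := (cnt_cs (fun z : Om V × Finset V => FF t (gr z.1) z.2 ∧ s z.1) s Prod.fst
    (fun _ h => h.2)).trans (mul_le_mul_of_nonneg_left ((cnt_inj
      (fun z : (Om V × Finset V) × Om V × Finset V => ((z.1.2, z.2.2), z.1.1))
      (fun z h => ⟨h.1.1.1, h.2 ▸ h.1.2.1⟩) (fun z w h h' e => by
        simp only [Prod.mk.injEq] at e
        exact Prod.ext (Prod.ext e.2 e.1.1) (Prod.ext (h.2.symm.trans (e.2.trans h'.2)) e.1.2))).trans a2)
      (cnt_nonneg _))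
  have b4 : Fintype.card (Om V) * (1 / 52) ≤ cnt s := by
    have := (pow_le_pow_left₀ (by positivity) (by linarith : Fintype.card (Om V) * μ / 2 ≤ _) 2).trans b3
    refine le_of_mul_le_mul_right (le_trans (le_of_eq ?_) this) (by positivity)
    ring
  let u : Om V → Prop := fun ω => μ ^ 2 / (32 * Fintype.card V * 2 ^ t) < cnt (ZZ t (gr ω))
  have b5 := (pair_lo u (fun ω => ZZ t (gr ω)) _ (fun _ h => h.le)).trans ((cnt_inj Prod.swap
    (fun _ h => h.2) (fun _ _ _ _ e => Prod.swap_injective e)).trans a3)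
  have b6 : cnt u ≤ Fintype.card (Om V) * (1 / 200) := by
    rw [← le_div_iff₀ (by positivity)] at b5
    refine b5.trans ?_
    generalize (1 / 16 : ℝ) ^ t = x at *
    calc _ = Fintype.card (Om V) * (192 * t * (Fintype.card V * x) * (2 ^ t * x)) := by field_simp; ring
      _ ≤ _ := by rw [x3]; exact mul_le_mul_of_nonneg_left (by linarith) M0.le
  have b7 := (cnt_surj (r := fun ω : Om V => ∃ A B, FF t (gr ω) A ∧ FF t (gr ω) B ∧
    (A ∩ B).card = t - 1) Prod.snd (fun ω ⟨A, B, a, b, c⟩ =>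
      ⟨((A, B), ω), ⟨⟨a.1, b.1, c⟩, a.2, b.2⟩, rfl⟩)).trans a4
  have b8 := (cnt_or (p := s) (r := fun ω : Om V => Good t (gr ω)) (fun ω h => by
    refine or_iff_not_imp_right.2 (fun c => ?_)
    rw [not_or] at c
    refine ⟨win (c := μ / (8 * Fintype.card V * 2 ^ t)) (by positivity) (lt_of_lt_of_le ?_ h), ?_, c.2⟩
    · have := div_le_div_of_nonneg_right (not_lt.1 c.1)
        (by positivity : 0 ≤ μ / (8 * Fintype.card V * 2 ^ t))
      have e1 : μ ^ 2 / (32 * Fintype.card V * 2 ^ t) / (μ / (8 * Fintype.card V * 2 ^ t)) = μ / 4 := by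
        field_simp; ring
      have e2 : Fintype.card V * (μ / (8 * Fintype.card V * 2 ^ t) * 2 ^ t) = μ / 8 := by field_simp
      linarith
    · by_contra e
      have := cnt_false (not_exists.1 e)
      simp only [s] at h
      linarith)).trans (add_le_add le_rfl ((cnt_or (fun _ h => h)).trans (add_le_add b6 b7)))
  linarith

open Classical in
noncomputable def Pr (p : ℝ) (n : ℕ) (E : SimpleGraph (Fin n) → Prop) : ℝ :=
  ∑ G : SimpleGraph (Fin n), if E G then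
    p ^ G.edgeSet.ncard * (1 - p) ^ (n.choose 2 - G.edgeSet.ncard) else 0

lemma fib (n : ℕ) (G : SimpleGraph (Fin n)) : Fintype.card (Om (Fin n)) *
    ((15 / 16 : ℝ) ^ G.edgeSet.ncard * (1 - 15 / 16) ^ (n.choose 2 - G.edgeSet.ncard)) ≤
      cnt (fun ω : Om (Fin n) => gr ω = G) := by
  classical
  refine le_trans (le_of_eq ?_) (cnt_mono (p := fun ω : Om (Fin n) => ∀ e, e.IsDiag ∨
    (e ∈ G.edgeSet ↔ ω e ≠ 0)) (fun ω h => ?_))
  · rw [cnt_prod (fun (e : Sym2 (Fin n)) (c : Fin 16) => e.IsDiag ∨ (e ∈ G.edgeSet ↔ c ≠ 0))]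
    have : ∀ e : Sym2 (Fin n), cnt (fun c : Fin 16 => e.IsDiag ∨ (e ∈ G.edgeSet ↔ c ≠ 0)) =
        16 * ((if e ∈ G.edgeFinset then 15 / 16 else 1) *
          if e ∈ (⊤ : SimpleGraph (Fin n)).edgeFinset \ G.edgeFinset then 1 - 15 / 16 else 1) := by
      intro e
      by_cases a : e ∈ G.edgeSet
      · have := G.not_isDiag_of_mem_edgeSet a
        rw [cnt_eq_card]
        simp [a, this, filter_ne']; norm_num
      · by_cases b : e.IsDiag <;> simp [a, b, cnt]; norm_num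
    simp only [this, prod_mul_distrib, prod_ite_mem, univ_inter, prod_const, Fintype.card_fun]
    rw [card_sdiff_of_subset (SimpleGraph.edgeFinset_mono le_top),
      SimpleGraph.card_edgeFinset_top_eq_card_choose_two, Set.ncard_eq_toFinset_card']
    simp [SimpleGraph.edgeFinset]
  · ext x y
    have := h s(x, y)
    have := G.ne_of_adj (a := x) (b := y)
    simp only [gr, SimpleGraph.fromEdgeSet_adj, Set.mem_ofPred_eq, Sym2.mk_isDiag_iff,
      SimpleGraph.mem_edgeSet] at *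
    tauto

lemma Pr_le (n : ℕ) (E : SimpleGraph (Fin n) → Prop) :
    Fintype.card (Om (Fin n)) * Pr (15 / 16) n E ≤ cnt (fun ω : Om (Fin n) => E (gr ω)) := by
  classical
  refine le_trans ?_ (cnt_fib (univ.filter E) gr)
  rw [Pr, ← sum_filter, mul_sum]
  exact sum_le_sum (fun G hG => (fib n G).trans (cnt_mono (fun ω h => ⟨h ▸ (mem_filter.1 hG).2, h⟩)))

theorem main (E : ∀ n, SimpleGraph (Fin n) → Prop)
    (h : ∀ n t, 2 ≤ t → 2 * t ≤ n → ∀ G, Good t G → ¬ E n G) :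
    ¬ Tendsto (fun n => Pr (15 / 16) n (E n)) atTop (nhds 1) := by
  intro hT
  obtain ⟨N, hN⟩ := eventually_atTop.1 (hT.eventually_const_lt (by norm_num : (99 / 100 : ℝ) < 1))
  obtain ⟨t, H, ht⟩ := (((tendsto_pow_const_div_const_pow_of_one_lt 3
    (by norm_num : (1 : ℝ) < 5 / 4)).eventually_le_const (by norm_num : (0 : ℝ) < 1 / 10 ^ 5)).and
    (eventually_ge_atTop (N + 27))).exists
  rw [div_le_div_iff₀ (by positivity) (by positivity), one_mul, mul_comm] at H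
  have hn := Fintype.card_fin (2 * t ^ 2 * 16 ^ t)
  have a := good_lo (by omega) H hn
  have b := (xs (by omega) H hn).2.1
  rw [hn] at b
  have c := (mul_lt_mul_of_pos_left (hN _ (by omega)) (Nat.cast_pos.2 Fintype.card_pos)).trans_le
    ((Pr_le _ (E _)).trans (cnt_mono (fun ω e g => h _ t (by omega) b _ g e)))
  have d := cnt_split (fun _ : Om (Fin (2 * t ^ 2 * 16 ^ t)) => True) (fun ω => Good t (gr ω))
  simp only [true_and, cnt_true] at d
  linarith

lemma two {t : ℕ} {G : SimpleGraph V} (hn : 2 * t ≤ Fintype.card V) (ht : 2 ≤ t) {S : Finset V}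
    (hS : S.card + 1 ≤ t) (h : Dom G S ∨ ∃ x y, x ≠ y ∧ Dom G (insert x S) ∧ Dom G (insert y S)) :
    ∃ A B, FF t G A ∧ FF t G B ∧ (A ∩ B).card = t - 1 := by
  obtain ⟨x, y, n, p, q, a, b⟩ : ∃ x y, x ≠ y ∧ x ∉ S ∧ y ∉ S ∧ Dom G (insert x S) ∧
      Dom G (insert y S) := by
    by_cases c : Dom G S
    · obtain ⟨x, p, y, q, n⟩ := one_lt_card.1 (by rw [card_compl]; omega : 1 < Sᶜ.card)
      exact ⟨x, y, n, mem_compl.1 p, mem_compl.1 q, c.mono (subset_insert _ _), c.mono (subset_insert _ _)⟩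
    · obtain ⟨x, y, n, a, b⟩ := h.resolve_left c
      exact ⟨x, y, n, fun e => c (insert_eq_of_mem e ▸ a), fun e => c (insert_eq_of_mem e ▸ b), a, b⟩
  obtain ⟨W, w1, w2, w3⟩ := exists_subsuperset_card_eq (s := S) (t := (univ.erase x).erase y) (n := t - 1)
    (fun z hz => by simp; grind) (by omega) (by
      rw [card_erase_of_mem (by simp [n.symm]), card_erase_of_mem (by simp), card_univ]; omega)
  have p' : x ∉ W := fun e => by simpa using w2 e
  have q' : y ∉ W := fun e => by simpa using w2 e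
  refine ⟨insert x W, insert y W, ⟨by rw [card_insert_of_notMem p']; omega,
    a.mono (insert_subset_insert _ w1)⟩, ⟨by rw [card_insert_of_notMem q']; omega,
    b.mono (insert_subset_insert _ w1)⟩, ?_⟩
  rw [← w3]; congr 1; ext z; simp; grind

lemma GW.mono {b : ℕ} {g : Finset V → Prop} {k l : ℕ} (h : k ≤ l) :
    ∀ {D T : Finset V}, GW b g k D T → GW b g l D T := by
  induction k generalizing l with
  | zero => cases l <;> [exact id; exact Or.inl]
  | succ k ih =>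
    obtain ⟨l, rfl⟩ := Nat.exists_eq_succ_of_ne_zero (by omega : l ≠ 0)
    exact fun h' => h'.imp_right (fun ⟨v, a, c⟩ => ⟨v, a, fun B x y => ih (by omega) (c B x y)⟩)

lemma gw2 {G : SimpleGraph V} {g : Finset V → Prop} (hg : ∀ D, g D → Dom G D) (k : ℕ) :
    ∀ D T : Finset V, (∀ B : Finset V, B.card ≤ 1 → Disjoint B (D ∪ T) → GW 1 g (k + 1) D (T ∪ B)) →
      ∃ S : Finset V, S.card ≤ D.card + k ∧
        (Dom G S ∨ ∃ x y, x ≠ y ∧ Dom G (insert x S) ∧ Dom G (insert y S)) := by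
  induction k with
  | zero =>
    refine fun D T h => ⟨D, le_rfl, (h ∅ (by simp) (by simp)).elim (fun e => Or.inl (hg _ e)) ?_⟩
    rintro ⟨x, a, b⟩
    refine (h {x} (by simp) (by simpa using a)).imp (hg _) ?_
    rintro ⟨y, c, d⟩
    exact ⟨x, y, fun e => c (by simp [e]), hg _ (b ∅ (by simp) (by simp)), hg _ (d ∅ (by simp) (by simp))⟩
  | succ k ih =>
    refine fun D T h => (h ∅ (by simp) (by simp)).elim (fun e => ⟨D, by omega, Or.inl (hg _ e)⟩) ?_
    rintro ⟨x, -, b⟩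
    obtain ⟨S, c, d⟩ := ih _ _ b
    exact ⟨S, by have := card_insert_le x D; omega, d⟩

lemma gw3 {t k : ℕ} {G : SimpleGraph V} (hn : 2 * t ≤ Fintype.card V) (ht : 2 ≤ t) (h : Good t G)
    (hk : k ≤ t) : ¬ GW 1 (fun D => ∃ A ⊆ D, Dom G A) k ∅ ∅ := by
  intro c
  obtain ⟨t, rfl⟩ := Nat.exists_eq_add_of_le' ht
  have hg : ∀ D, (∃ A ⊆ D, Dom G A) → Dom G D := fun D ⟨A, a, b⟩ => b.mono a
  rcases c.mono hk with c | ⟨x, -, c⟩
  · exact h.2.2 (two hn ht (S := ∅) (by simp) (Or.inl (hg _ c)))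
  · obtain ⟨S, a, b⟩ := gw2 hg t _ _ c
    exact h.2.2 (two hn ht (by simp at a; omega) b)

def DW (b : ℕ) (goal : Finset V → Prop) : ℕ → Finset V → Finset V → Prop
  | 0, D, _ => goal D
  | k + 1, D, T => goal D ∨ ∃ A : Finset V, A.card ≤ b ∧ Disjoint A (D ∪ T) ∧
      ∀ B : Finset V, B.card ≤ 1 → Disjoint B (D ∪ A ∪ T) → DW b goal k (D ∪ A) (T ∪ B)

lemma DW.mono {b : ℕ} {g : Finset V → Prop} {k l : ℕ} (h : k ≤ l) :
    ∀ {D T : Finset V}, DW b g k D T → DW b g l D T := by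
  induction k generalizing l with
  | zero => cases l <;> [exact id; exact Or.inl]
  | succ k ih =>
    obtain ⟨l, rfl⟩ := Nat.exists_eq_succ_of_ne_zero (by omega : l ≠ 0)
    exact fun h' => h'.imp_right (fun ⟨v, a, a', c⟩ => ⟨v, a, a', fun B x y => ih (by omega) (c B x y)⟩)

lemma dw2 {G : SimpleGraph V} {g : Finset V → Prop} (hg : ∀ D, g D → Dom G D) (k : ℕ) :
    ∀ D T : Finset V, (∀ B : Finset V, B.card ≤ 1 → Disjoint B (D ∪ T) → DW 1 g (k + 1) D (T ∪ B)) →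
      ∃ S : Finset V, S.card ≤ D.card + k ∧
        (Dom G S ∨ ∃ x y, x ≠ y ∧ Dom G (insert x S) ∧ Dom G (insert y S)) := by
  induction k with
  | zero =>
    refine fun D T h => ⟨D, le_rfl, or_iff_not_imp_left.2 (fun n => ?_)⟩
    have k : ∀ T, DW 1 g 1 D T → ∃ x, x ∉ D ∪ T ∧ Dom G (insert x D) := by
      rintro T (e | ⟨A, a, b, c⟩)
      · exact absurd (hg _ e) n
      have := hg _ (c ∅ (by simp) (by simp))
      rcases Nat.le_one_iff_eq_zero_or_eq_one.1 a with a | a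
      · rw [card_eq_zero.1 a, union_empty] at this; exact absurd this n
      · obtain ⟨x, rfl⟩ := card_eq_one.1 a
        exact ⟨x, by simpa using b, by rwa [union_comm, ← insert_eq] at this⟩
    obtain ⟨x, a, b⟩ := k _ (h ∅ (by simp) (by simp))
    obtain ⟨y, c, d⟩ := k _ (h {x} (by simp) (by simpa using a))
    exact ⟨x, y, fun e => c (by simp [e]), b, d⟩
  | succ k ih =>
    refine fun D T h => (h ∅ (by simp) (by simp)).elim (fun e => ⟨D, by omega, Or.inl (hg _ e)⟩) ?_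
    rintro ⟨A, a, -, b⟩
    obtain ⟨S, c, d⟩ := ih _ _ b
    exact ⟨S, by have := card_union_le D A; omega, d⟩

lemma dw3 {t k : ℕ} {G : SimpleGraph V} (hn : 2 * t ≤ Fintype.card V) (ht : 2 ≤ t) (h : Good t G)
    (hk : k ≤ t) : ¬ DW 1 (fun D => ∃ A ⊆ D, Dom G A) k ∅ ∅ := by
  intro c
  obtain ⟨t, rfl⟩ := Nat.exists_eq_add_of_le' ht
  have hg : ∀ D, (∃ A ⊆ D, Dom G A) → Dom G D := fun D ⟨A, a, b⟩ => b.mono a
  rcases c.mono hk with c | ⟨x, d, -, c⟩
  · exact h.2.2 (two hn ht (S := ∅) (by simp) (Or.inl (hg _ c)))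
  · obtain ⟨S, a, b⟩ := dw2 hg t _ _ c
    exact h.2.2 (two hn ht (by simp at a; omega) b)

lemma inf_gt {P : ℕ → Prop} {t : ℕ} (h : ∀ k ≤ t, ¬ P k) : ¬ (⨅ (k : ℕ) (_ : P k), (k : ℕ∞)) ≤ t :=
  fun c => by
    have := (le_iInf₂ (a := ((t + 1 : ℕ) : ℕ∞)) (fun k (hk : P k) => Nat.cast_le.2 (by
      by_contra e; exact h k (by omega) hk))).trans c
    rw [Nat.cast_le] at this
    omega

end Pool.Agent.H.MP_dfc2f8_pr
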